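import Pool.Agent.Helper64.RN.Goals2

/-!
# Project RN part 2 (MP_d01c92_ag), packet ID: a generic infinite subset (helper45)
-/

set_option autoImplicit false

universe u

namespace Pool.Agent.Helper45.RN.ID

open Pool.Agent.Helper64.RN

/-- the ideal of the polynomials that vanish at all `v i`, `i ∈ Y` -/
def van {K : Type u} [Field K] {p : ℕ} (v : ℕ → Fin p → K) (Y : Set ℕ) :
    Ideal (MvPolynomial (Fin p) K) where
  carrier := {g | ∀ i ∈ Y, MvPolynomial.eval (v i) g = 0}
  add_mem' := by
    intro g h hg hh i hi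
    rw [map_add, hg i hi, hh i hi, add_zero]
  zero_mem' := by
    intro i _
    rw [map_zero]
  smul_mem' := by
    intro c g hg i hi
    rw [smul_eq_mul, map_mul, hg i hi, mul_zero]

theorem mem_van {K : Type u} [Field K] {p : ℕ} {v : ℕ → Fin p → K} {Y : Set ℕ}
    {g : MvPolynomial (Fin p) K} : g ∈ van v Y ↔ ∀ i ∈ Y, MvPolynomial.eval (v i) g = 0 := Iff.rfl

theorem t : Pool.Agent.Helper64.RN.S_ID.{u} := by
  intro K _ p v
  let 𝒮 : Set (Ideal (MvPolynomial (Fin p) K)) := {J | ∃ Y : Set ℕ, Y.Infinite ∧ J = van v Y}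
  have hne : 𝒮.Nonempty := ⟨van v Set.univ, Set.univ, Set.infinite_univ, rfl⟩
  obtain ⟨J, ⟨Y, hY, rfl⟩, hmax⟩ :=
    (wellFounded_gt (α := Ideal (MvPolynomial (Fin p) K))).has_min 𝒮 hne
  have hall : ∀ Y' ⊆ Y, Y'.Infinite → van v Y' = van v Y := by
    intro Y' hsub hinf
    have hle : van v Y ≤ van v Y' := fun g hg i hi => hg i (hsub hi)
    rcases lt_or_eq_of_le hle with hlt | heq
    · exact absurd hlt (hmax (van v Y') ⟨Y', hinf, rfl⟩)
    · exact heq.symm
  refine ⟨Y, van v Y, hY, ?_, fun g hg => hg, ?_⟩
  · refine ⟨?_, ?_⟩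
    · intro htop
      obtain ⟨i, hi⟩ := hY.nonempty
      have h1 : (1 : MvPolynomial (Fin p) K) ∈ van v Y := by
        rw [htop]
        exact Submodule.mem_top
      have h2 := h1 i hi
      rw [map_one] at h2
      exact one_ne_zero h2
    · intro g h hgh
      have hun : Y = (Y ∩ {i | MvPolynomial.eval (v i) g = 0}) ∪
          (Y ∩ {i | MvPolynomial.eval (v i) h = 0}) := by
        ext i
        constructor
        · intro hi
          have h1 := hgh i hi
          rw [map_mul, mul_eq_zero] at h1
          rcases h1 with h1 | h1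
          · exact Or.inl ⟨hi, h1⟩
          · exact Or.inr ⟨hi, h1⟩
        · rintro (h1 | h1)
          · exact h1.1
          · exact h1.1
      have hinf : (Y ∩ {i | MvPolynomial.eval (v i) g = 0}).Infinite ∨
          (Y ∩ {i | MvPolynomial.eval (v i) h = 0}).Infinite := by
        rw [← Set.infinite_union, ← hun]
        exact hY
      rcases hinf with h1 | h1
      · left
        rw [← hall _ Set.inter_subset_left h1]
        exact fun i hi => hi.2
      · right
        rw [← hall _ Set.inter_subset_left h1]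
        exact fun i hi => hi.2
  · intro Y' hsub hinf g hg
    rw [← hall Y' hsub hinf]
    exact hg

end Pool.Agent.Helper45.RN.ID
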